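import Pool.Agent.Helper27.RV.St

/-!
# Project RV, module COD: the recursive choice of the functions
-/

set_option autoImplicit false

open Cardinal Ordinal Set

universe u

namespace Pool.Agent.Helper66.RV

open Pool.Agent.Helper27.RV

theorem pCOD : StCOD.{u} := by
  intro K m L J c hK hLarge
  classical
  obtain ⟨g, hg⟩ : ∃ g : K → ℕ, Function.Surjective g := by
    have hinf : Infinite K := Cardinal.infinite_iff.2 hK
    exact ⟨Function.invFun (Infinite.natEmbedding K),
      Function.invFun_surjective (Infinite.natEmbedding K).injective⟩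
  have hT0 : ∀ (a : Ordinal.{u}) (S0 : Ordinal.{u} → L → ℕ → Ordinal.{u}),
      ∃ T : L → ℕ → Ordinal.{u}, a < m.ord → (∀ l n, T l n < c l) ∧
        ∀ B, Cvd (fun (i : a.ToType) l (k : K) => S0 (i.toOrd : Ordinal.{u}) l (g k)) T B →
          B ∈ J := by
    intro a S0
    by_cases ha : a < m.ord
    · obtain ⟨T, h1, h2⟩ := hLarge a.ToType (by rw [mk_toType]; exact Cardinal.lt_ord.1 ha)
        (fun i l k => S0 (i.toOrd : Ordinal.{u}) l (g k))
      exact ⟨T, fun _ => ⟨fun l n => h1 l trivial n, fun B hB => h2 B (subset_univ _) hB⟩⟩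
    · exact ⟨fun _ _ => 0, fun h => absurd h ha⟩
  choose T hT using hT0
  obtain ⟨S, hS⟩ : ∃ S : Ordinal.{u} → L → ℕ → Ordinal.{u},
      ∀ a, S a = T a (fun b => if b < a then S b else fun _ _ => 0) := by
    let S : Ordinal.{u} → L → ℕ → Ordinal.{u} :=
      WellFounded.fix (C := fun _ => L → ℕ → Ordinal.{u}) (wellFounded_lt (α := Ordinal.{u}))
        (fun a rec => T a (fun b => if h : b < a then rec b h else fun _ _ => 0))
    refine ⟨S, fun a => ?_⟩
    have h1 := WellFounded.fix_eq (C := fun _ => L → ℕ → Ordinal.{u})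
      (wellFounded_lt (α := Ordinal.{u}))
      (fun a rec => T a (fun b => if h : b < a then rec b h else fun _ _ => 0)) a
    change S a = _ at h1
    rw [h1]
    congr 1
  refine ⟨S, fun a ha => ?_⟩
  obtain ⟨h1, h2⟩ := hT a (fun b => if b < a then S b else fun _ _ => 0) ha
  rw [← hS a] at h1 h2
  refine ⟨h1, ?_⟩
  intro Q q B hQ hq hB
  refine h2 B ⟨range (fun i : Q => (ToType.mk ⟨q i, hq i⟩ : a.ToType)), mk_range_le.trans hQ, ?_⟩
  intro l hl n
  obtain ⟨i, n', h3⟩ := hB l hl n
  obtain ⟨k, hk⟩ := hg n'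
  refine ⟨_, ⟨i, rfl⟩, k, ?_⟩
  have h4 : (((ToType.mk ⟨q i, hq i⟩ : a.ToType).toOrd : Ordinal.{u})) = q i := by
    simp [ToType.toOrd]
  simp only [h4, hk]
  rw [if_pos (hq i)]
  exact h3

end Pool.Agent.Helper66.RV
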