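import Pool.Agent.Helper27.RV.St

/-!
# Project RV, module CVB: covering numbers depend only on the cardinality
-/

set_option autoImplicit false

open Cardinal Ordinal Set

universe u

namespace Pool.Agent.Helper66.RV

open Pool.Agent.Helper27.RV

/-- two ordinals of the same cardinality -/
theorem exists_gh {t t' : Ordinal.{u}} (h : t.card = t'.card) :
    ∃ g h : Ordinal.{u} → Ordinal.{u}, ∀ a < t, h a < t' ∧ g (h a) = a := by
  have h1 : #t.ToType = #t'.ToType := by rw [mk_toType, mk_toType, h]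
  obtain ⟨e⟩ := Cardinal.eq.1 h1
  classical
  refine ⟨fun b => if hb : b < t' then ((e.symm (ToType.mk ⟨b, hb⟩)).toOrd : Ordinal.{u}) else 0,
    fun a => if ha : a < t then ((e (ToType.mk ⟨a, ha⟩)).toOrd : Ordinal.{u}) else 0, ?_⟩
  intro a ha
  have h2 : ((e (ToType.mk ⟨a, ha⟩)).toOrd : Ordinal.{u}) < t' := (e (ToType.mk ⟨a, ha⟩)).toOrd.2
  simp only [dif_pos ha, dif_pos h2]
  refine ⟨h2, ?_⟩
  have h3 : (ToType.mk ⟨((e (ToType.mk ⟨a, ha⟩)).toOrd : Ordinal.{u}), h2⟩ : t'.ToType) =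
      e (ToType.mk ⟨a, ha⟩) := by
    simp [ToType.toOrd]
  rw [h3, Equiv.symm_apply_apply]
  simp [ToType.toOrd]

theorem pCVB : StCVB.{u} := by
  intro K β δ m t hC
  obtain ⟨ι, hι, P, hP⟩ := hC
  obtain ⟨g, h, hgh⟩ := exists_gh (t := t) (t' := t.card.ord) (by rw [card_ord])
  refine ⟨ι, hι, fun i k => g (P i k), fun y hy => ?_⟩
  obtain ⟨I, hI, h1⟩ := hP (fun e => h (y e)) (fun e => (hgh _ (hy e)).1)
  refine ⟨I, hI, fun e => ?_⟩
  obtain ⟨i, hi, k, hk⟩ := h1 e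
  refine ⟨i, hi, k, ?_⟩
  show y e = g (P i k)
  rw [← hk]
  exact ((hgh _ (hy e)).2).symm

end Pool.Agent.Helper66.RV
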