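import Pool.Agent.Helper27.RV.StL

/-!
# Project RV, module LFI: the covering of the representing functions fails
-/

set_option autoImplicit false

open Cardinal Ordinal Set Filter

universe u

namespace Pool.Agent.Helper66.RV

open Pool.Agent.Helper27.RV Pool.Agent.Helper65.GS Pool.Agent.Helper36.VC

theorem pLFI (h1 : StLQ.{u}) (h2 : StLCT.{u}) : StLFI.{u} := by
  intro X κ W A t l f hSit K β δ th s S hβ hβκ hδ hδκ hth hst hS hKN hs hK1 hK2 hKl hCov
  obtain ⟨ι, hι, P, hP⟩ := hCov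
  have hq : ∀ i : ι, ∃ q : K → Ordinal.{u}, ∀ y < l,
      Pos W {x ∈ A | {e | ∃ k, S (f y x) e = f (P i k) x} ∉ KN δ S (f y x)} → ∃ k, q k = y :=
    fun i => h2 κ W A t l f hSit K β δ S (P i) hβκ hδ hK1 hK2
  choose q hq using hq
  have hy : ∀ y : l.ToType, ∃ z : ι × K, q z.1 z.2 = (y.toOrd : Ordinal.{u}) := by
    intro y
    obtain ⟨i, hi⟩ := h1 κ W A t l f hSit K β ι δ th s S P hβ hβκ hδ hδκ hth hst hS hKN hs hP
      (y.toOrd : Ordinal.{u}) y.toOrd.2
    obtain ⟨k, hk⟩ := hq i _ y.toOrd.2 hi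
    exact ⟨(i, k), hk⟩
  choose z hz using hy
  have hinj : Function.Injective z := by
    intro y y' h
    have h3 : (y.toOrd : Ordinal.{u}) = (y'.toOrd : Ordinal.{u}) := by
      rw [← hz y, ← hz y', h]
    exact ToType.mk.symm.injective (Subtype.ext h3)
  have h3 : l.card ≤ #ι * #K := by
    have h4 := Cardinal.mk_le_of_injective hinj
    rwa [mk_toType, Cardinal.mk_prod, Cardinal.lift_id, Cardinal.lift_id] at h4
  have hinf : ℵ₀ ≤ l.card := by
    have h5 : κ ≤ l.card := by
      have h6 := Ordinal.card_le_card hSit.kl.le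
      rwa [Cardinal.card_ord] at h6
    exact hSit.unc.le.trans h5
  exact absurd (Cardinal.mul_lt_of_lt hinf hι hKl) (not_lt.2 h3)

end Pool.Agent.Helper66.RV
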