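import Pool.Agent.Helper27.RV.St

/-!
# Project RV, module SEQ: the recursive choice of the parameters
-/

set_option autoImplicit false

open Cardinal Ordinal Set

universe u

namespace Pool.Agent.Helper66.RV

open Pool.Agent.Helper27.RV

theorem pSEQ (h1 : StSPT.{u}) (h2 : StCVE.{u}) : StSEQ.{u} := by
  intro κ K m hK hκ hSP hCov
  choose! G hG1 hG2 hG3 using fun (b : Cardinal.{u}) (hb : b < κ) => hSP b hb b hb
  choose! B hB1 t hB2 hB3 using hCov
  have hBd : ∀ d < κ, d ≤ B d := by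
    intro d hd
    by_contra h
    push Not at h
    exact hB3 d hd (h2 K (B d).out d m (t d) hK (hB2 d hd) (by rw [Cardinal.mk_out]; exact h.le))
  obtain ⟨δ, hδ0, hδs⟩ : ∃ δ : ℕ → Cardinal.{u}, δ 0 = ℵ_ 1 ∧ ∀ n, δ (n + 1) = G (B (δ n)) :=
    ⟨fun n => Nat.rec (ℵ_ 1) (fun _ d => G (B d)) n, rfl, fun _ => rfl⟩
  have hδκ : ∀ n, δ n < κ := by
    intro n
    induction n with
    | zero => rw [hδ0]; exact hκ
    | succ n ih => rw [hδs]; exact hG1 _ (hB1 _ ih)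
  have hbκ : ∀ n, B (δ n) < κ := fun n => hB1 _ (hδκ n)
  have hδb : ∀ n, δ n ≤ B (δ n) := fun n => hBd _ (hδκ n)
  have hbδ : ∀ n, B (δ n) ≤ δ (n + 1) := fun n => by rw [hδs]; exact hG2 _ (hbκ n)
  have hge : ∀ n, ℵ_ 1 ≤ δ n := by
    intro n
    induction n with
    | zero => rw [hδ0]
    | succ n ih => exact ih.trans ((hδb n).trans (hbδ n))
  have hbm : Monotone (fun n => B (δ n)) :=
    monotone_nat_of_le_succ fun n => (hbδ n).trans (hδb (n + 1))
  refine ⟨δ, fun n => B (δ n), hbκ, hge, hδb, hbδ, ?_, fun n => ⟨t (δ n), hB2 _ (hδκ n),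
    hB3 _ (hδκ n)⟩⟩
  intro i n hin
  obtain ⟨n', rfl⟩ : ∃ n', n = n' + 1 := ⟨n - 1, by omega⟩
  have hne : Nonempty (δ (n' + 1)).out := by
    rw [← Cardinal.mk_ne_zero_iff, Cardinal.mk_out]
    have h3 : (0 : Cardinal.{u}) < δ (n' + 1) := (aleph_pos 1).trans_le (hge (n' + 1))
    exact h3.ne'
  have h4 : SP (B (δ n')).out (δ (n' + 1)).out := by
    rw [hδs]
    exact hG3 _ (hbκ n')
  refine h1 _ _ _ _ hne ?_ rfl h4
  rw [Cardinal.mk_out, Cardinal.mk_out]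
  exact hbm (by omega)

end Pool.Agent.Helper66.RV
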